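import Pool.Agent.H54.KVA.Defs2

/-!
# Conditional entropy as a mean over the sample space
-/

set_option autoImplicit false

namespace Pool.KVA

open Finset Real MeasureTheory
open Pool.Agent.H49.Ent Pool.Agent.H32.Dense Pool.STK

theorem cex_thm : CEXStmt := by
  classical
  intro Ω S T _ p X Z hp
  refine ⟨?_, ?_⟩
  · rw [CH_eq_sum hp.1 X Z, Ex]
    exact (sum_mul_eq_sum_image p Z (fun z => H (cond p Z z) X)).symm
  · intro ω hω
    exact ⟨fun ω' => cond_nonneg hp.1 Z (Z ω) ω', sum_cond p Z (law_pos hp.1 Z hω).ne'⟩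

end Pool.KVA
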